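import Pool.Agent.H93.Schatten.Main

/-!
# Schatten-class Lipschitz estimates for contractions approaching norm one

Complete answer to Q1.  The definitions (`schattenNorm`, `funCalc`, ...) are in
`Pool.Agent.H93.Schatten.Defs`; the existence and uniqueness of `f(T)` for a Lipschitz function `f`
and a contraction `T` is `Pool.Agent.H93.Schatten.existsUnique_isFunCalc` (it contains a proof of
the dilation theorem of Sz.-Nagy).
-/

open scoped ENNReal NNReal
open Pool.Agent.H93.Schatten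

namespace Pool.Agent.Results.MP_6ade77_an.Answer

universe u

/-- Let `1 < p < ∞`.

(a) On every infinite-dimensional complex Hilbert space there are a Lipschitz function `f` on the
circle outside the disk algebra, a contraction `T₁` and contractions `T₀ n` with
`sup ‖T₁ - T₀ n‖_p < ∞`, `‖T₀ n‖ ↑ 1` and `‖f(T₁) - f(T₀ n)‖_p ↑ ∞` (all these numbers being
finite).

(b) On every complex Hilbert space, for all Lipschitz `f`, all contractions `T₁` and `T₀ n` with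
`sup ‖T₁ - T₀ n‖_p < ∞`, one has `sup ‖f(T₁) - f(T₀ n)‖_p < ∞` as soon as at least one `T₀ m` is a
strict contraction.  In particular all the `T₀ n` of (a) necessarily have norm exactly `1`, and
there is no example in which the `T₀ n` are strict contractions. -/
theorem result (p : ℝ) (hp : 1 < p) :
    (∀ (H : Type u) [NormedAddCommGroup H] [InnerProductSpace ℂ H] [CompleteSpace H],
      ¬ FiniteDimensional ℂ H →
      ∃ f : ℂ → ℂ, LipschitzOnCircle f ∧ ¬ InDiskAlgebra f ∧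
        ∃ (T₁ : H →L[ℂ] H) (T₀ : ℕ → H →L[ℂ] H), ‖T₁‖ ≤ 1 ∧ (∀ n, ‖T₀ n‖ ≤ 1) ∧
          (∃ C : ℝ≥0, ∀ n, schattenNorm p (T₁ - T₀ n) ≤ C) ∧
          IncreasesTo (fun n => ‖T₀ n‖) 1 ∧
          IncreasesTo (fun n => schattenNorm p (funCalc f T₁ - funCalc f (T₀ n))) ⊤ ∧
          ∀ n, schattenNorm p (funCalc f T₁ - funCalc f (T₀ n)) < ⊤) ∧
    (∀ (H : Type u) [NormedAddCommGroup H] [InnerProductSpace ℂ H] [CompleteSpace H]
      (f : ℂ → ℂ) (T₁ : H →L[ℂ] H) (T₀ : ℕ → H →L[ℂ] H), LipschitzOnCircle f →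
        ‖T₁‖ ≤ 1 → (∀ n, ‖T₀ n‖ ≤ 1) →
        (∃ C : ℝ≥0, ∀ n, schattenNorm p (T₁ - T₀ n) ≤ C) → (∃ m, ‖T₀ m‖ < 1) →
        ∃ C' : ℝ≥0, ∀ n, schattenNorm p (funCalc f T₁ - funCalc f (T₀ n)) ≤ C') := by
  have key : ∀ a : ℕ → ℝ≥0∞, (⨆ n, a n) < ⊤ ↔ ∃ C : ℝ≥0, ∀ n, a n ≤ C := by
    intro a
    constructor
    · intro h
      refine ⟨(⨆ n, a n).toNNReal, fun n => ?_⟩
      rw [ENNReal.coe_toNNReal h.ne]
      exact le_iSup a n
    · rintro ⟨C, hC⟩
      exact lt_of_le_of_lt (iSup_le hC) ENNReal.coe_lt_top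
  refine ⟨fun H _ _ _ hH => ?_, ?_⟩
  · obtain ⟨f, hf1, hf2, T₁, T₀, h1, h2, h3, h4, h5, h6⟩ := partA hp.le hH
    exact ⟨f, hf1, hf2, T₁, T₀, h1, h2, (key _).1 h3, h4, h5, h6⟩
  · intro H _ _ _ f T₁ T₀ hf h1 h0 hb hm
    exact (key _).1 (partB hp.le hf T₁ T₀ h1 h0 ((key _).2 hb) hm)

end Pool.Agent.Results.MP_6ade77_an.Answer
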